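import Mathlib

set_option autoImplicit false

/-!
# The v-number along powers of an ideal is not monotone

We disprove the strict monotonicity of `k ↦ v(I ^ k)` (problem MP_0bcfe8_al, Q1), over every field
and at every exponent, already for edge ideals of graphs.

The graph is an odd cycle of length `2 k + 1` with `m` paths of length two attached at every vertex
of the cycle.  If `f` is the product of the cycle variables, then `(I ^ (k + 1) : f)` is generated
by the cycle variables and their neighbours, so `v(I ^ (k + 1)) ≤ 2 k + 1`.  For `1 ≤ j ≤ k` a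
monomial of degree less than `m` misses some attached path at each vertex of the cycle; being a
witness for `v(I ^ j)` then forces it to be divisible by all the cycle variables, hence to lie in
`I ^ j`, a contradiction.  So `v(I ^ j) ≥ m`.
-/

open MvPolynomial

namespace Pool.Agent.Results.MP_0bcfe8_al.VNumberDrop

/-- The degrees of the homogeneous polynomials `f` such that `(J : f) = {g : g * f ∈ J}` is an
associated prime of `S / J`, where `S = K[x_i : i ∈ σ]`. -/
def witnessDegrees {σ : Type*} {K : Type*} [Field K] (J : Ideal (MvPolynomial σ K)) : Set ℕ :=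
  {d : ℕ | ∃ f : MvPolynomial σ K, f.IsHomogeneous d ∧
    J.colon {f} ∈ associatedPrimes (MvPolynomial σ K) (MvPolynomial σ K ⧸ J)}

/-- The v-number of an ideal `J` of the polynomial ring `S = K[x_i : i ∈ σ]`: the least degree
of a homogeneous polynomial `f` such that `(J : f)` is an associated prime of `S / J`. -/
noncomputable def vNumber {σ : Type*} {K : Type*} [Field K] (J : Ideal (MvPolynomial σ K)) : ℕ :=
  sInf (witnessDegrees J)

/-- The ideal `J` is homogeneous for the standard grading: it contains every homogeneous component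
of each of its elements. -/
def IsHomogeneousIdeal {σ : Type*} {K : Type*} [Field K] (J : Ideal (MvPolynomial σ K)) : Prop :=
  ∀ f ∈ J, ∀ d : ℕ, homogeneousComponent d f ∈ J

/-- The edge ideal of a simple graph `G`: it is generated by the products `x_i x_j` over all edges
`{i, j}` of `G`. -/
noncomputable def edgeIdeal {σ : Type*} (K : Type*) [Field K] (G : SimpleGraph σ) :
    Ideal (MvPolynomial σ K) :=
  Ideal.span {f | ∃ i j : σ, G.Adj i j ∧ f = X i * X j}

section Exponents

variable {σ : Type*}

/-- Exponents of products of `j` monomials with exponents in `E`. -/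
def powExp (E : Set (σ →₀ ℕ)) : ℕ → Set (σ →₀ ℕ)
  | 0 => {0}
  | (j + 1) => {u | ∃ e ∈ E, ∃ v ∈ powExp E j, u = e + v}

theorem span_powExp {K : Type*} [Field K] (E : Set (σ →₀ ℕ)) (j : ℕ) :
    (Ideal.span ((fun s => monomial s (1 : K)) '' E)) ^ j =
      Ideal.span ((fun s => monomial s (1 : K)) '' powExp E j) := by
  induction j with
  | zero =>
    simp only [pow_zero, powExp, Set.image_singleton]
    rw [Ideal.one_eq_top, eq_comm, Ideal.eq_top_iff_one]
    exact Ideal.subset_span rfl
  | succ j ih =>
    rw [pow_succ', ih, Ideal.span_mul_span']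
    congr 1
    ext x
    constructor
    · rintro ⟨_, ⟨e, he, rfl⟩, _, ⟨v, hv, rfl⟩, rfl⟩
      refine ⟨e + v, ⟨e, he, v, hv, rfl⟩, ?_⟩
      simp [monomial_mul]
    · rintro ⟨_, ⟨e, he, v, hv, rfl⟩, rfl⟩
      refine ⟨_, ⟨e, he, rfl⟩, _, ⟨v, hv, rfl⟩, ?_⟩
      simp [monomial_mul]

/-- Every element of the `j`-th power set satisfies an additive-type property. -/
theorem powExp_induction {E : Set (σ →₀ ℕ)} {P : ℕ → (σ →₀ ℕ) → Prop}
    (h0 : P 0 0) (hs : ∀ j, ∀ e ∈ E, ∀ v, P j v → P (j + 1) (e + v)) :
    ∀ j, ∀ u ∈ powExp E j, P j u := by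
  intro j
  induction j with
  | zero =>
    intro u hu
    obtain rfl : u = 0 := hu
    exact h0
  | succ j ih =>
    rintro _ ⟨e, he, v, hv, rfl⟩
    exact hs j e he v (ih v hv)

end Exponents

/-- The vertices of the graph: an odd cycle of length `2k+1` with vertices `c i`, and at each
`c i` there are `m` pendant paths `c i - a i j - b i j`. -/
inductive Vert (k m : ℕ) : Type
  | c (i : ZMod (2 * k + 1)) : Vert k m
  | a (i : ZMod (2 * k + 1)) (j : Fin m) : Vert k m
  | b (i : ZMod (2 * k + 1)) (j : Fin m) : Vert k m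
  deriving DecidableEq

namespace Vert

variable {k m : ℕ}

/-- The (not yet symmetrised) adjacency. -/
inductive Rel : Vert k m → Vert k m → Prop
  | cc (i : ZMod (2 * k + 1)) : Rel (c i) (c (i + 1))
  | ca (i : ZMod (2 * k + 1)) (j : Fin m) : Rel (c i) (a i j)
  | ab (i : ZMod (2 * k + 1)) (j : Fin m) : Rel (a i j) (b i j)

/-- The graph. -/
def graph (k m : ℕ) : SimpleGraph (Vert k m) := SimpleGraph.fromRel Rel

/-- A sum type equivalent to `Vert k m`. -/
def equivSum : Vert k m ≃ (ZMod (2 * k + 1)) ⊕ (ZMod (2 * k + 1) × Fin m) ⊕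
    (ZMod (2 * k + 1) × Fin m) where
  toFun
    | c i => Sum.inl i
    | a i j => Sum.inr (Sum.inl (i, j))
    | b i j => Sum.inr (Sum.inr (i, j))
  invFun
    | Sum.inl i => c i
    | Sum.inr (Sum.inl (i, j)) => a i j
    | Sum.inr (Sum.inr (i, j)) => b i j
  left_inv := by rintro (i | ⟨i, j⟩ | ⟨i, j⟩) <;> rfl
  right_inv := by rintro (i | ⟨i, j⟩ | ⟨i, j⟩) <;> rfl

instance : Fintype (Vert k m) := Fintype.ofEquiv _ equivSum.symm

theorem adj_b {i : ZMod (2 * k + 1)} {j : Fin m} {x : Vert k m}
    (h : (graph k m).Adj (b i j) x) : x = a i j := by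
  rw [graph, SimpleGraph.fromRel_adj] at h
  obtain ⟨_, h | h⟩ := h <;> cases h
  rfl

theorem adj_a {i : ZMod (2 * k + 1)} {j : Fin m} {x : Vert k m}
    (h : (graph k m).Adj (a i j) x) : x = b i j ∨ x = c i := by
  rw [graph, SimpleGraph.fromRel_adj] at h
  obtain ⟨_, h | h⟩ := h <;> cases h
  · exact Or.inl rfl
  · exact Or.inr rfl

theorem adj_ca (i : ZMod (2 * k + 1)) (j : Fin m) : (graph k m).Adj (c i) (a i j) := by
  rw [graph, SimpleGraph.fromRel_adj]
  exact ⟨by simp, Or.inl (Rel.ca i j)⟩

theorem adj_ab (i : ZMod (2 * k + 1)) (j : Fin m) : (graph k m).Adj (a i j) (b i j) := by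
  rw [graph, SimpleGraph.fromRel_adj]
  exact ⟨by simp, Or.inl (Rel.ab i j)⟩

theorem adj_cc (hk : 1 ≤ k) (i : ZMod (2 * k + 1)) : (graph k m).Adj (c i) (c (i + 1)) := by
  rw [graph, SimpleGraph.fromRel_adj]
  refine ⟨?_, Or.inl (Rel.cc i)⟩
  intro h
  injection h with h
  have h1 : (1 : ZMod (2 * k + 1)) = 0 := by
    have := congrArg (fun x => x - i) h
    simpa using this.symm
  have : Fact (1 < 2 * k + 1) := ⟨by omega⟩
  exact one_ne_zero h1

end Vert

section Graph

variable {σ : Type*} {k m : ℕ} (e : σ ≃ Vert k m)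

/-- The exponents of the edges of the graph, transported to `σ`. -/
def edgeExp : Set (σ →₀ ℕ) :=
  {u | ∃ p q : σ, (Vert.graph k m).Adj (e p) (e q) ∧
    u = Finsupp.single p 1 + Finsupp.single q 1}

/-- if `b` occurs then `a` occurs -/
theorem powExp_b (j : ℕ) (u : σ →₀ ℕ) (hu : u ∈ powExp (edgeExp e) j)
    (i : ZMod (2 * k + 1)) (l : Fin m) (h : u (e.symm (.b i l)) ≠ 0) :
    u (e.symm (.a i l)) ≠ 0 := by
  revert h
  revert u
  revert j
  apply powExp_induction (P := fun _ u => u (e.symm (.b i l)) ≠ 0 → u (e.symm (.a i l)) ≠ 0)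
  · simp
  · rintro j _ ⟨p, q, hpq, rfl⟩ v hv h
    classical
    simp only [Finsupp.add_apply, Finsupp.single_apply] at h ⊢
    by_cases hp : p = e.symm (.b i l)
    · have : e q = .a i l := by
        apply Vert.adj_b
        rw [hp] at hpq
        simpa using hpq
      have hq : q = e.symm (.a i l) := by rw [← this]; simp
      rw [if_pos hq]
      omega
    · by_cases hq : q = e.symm (.b i l)
      · have : e p = .a i l := by
          apply Vert.adj_b
          rw [hq] at hpq
          simpa using hpq.symm
        have hp : p = e.symm (.a i l) := by rw [← this]; simp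
        rw [if_pos hp]
        omega
      · rw [if_neg hp, if_neg hq] at h
        have := hv (by simpa using h)
        omega

/-- if `a` occurs then `b` or `c` occurs -/
theorem powExp_a (j : ℕ) (u : σ →₀ ℕ) (hu : u ∈ powExp (edgeExp e) j)
    (i : ZMod (2 * k + 1)) (l : Fin m) (h : u (e.symm (.a i l)) ≠ 0) :
    u (e.symm (.b i l)) ≠ 0 ∨ u (e.symm (.c i)) ≠ 0 := by
  revert h
  revert u
  revert j
  apply powExp_induction (P := fun _ u => u (e.symm (.a i l)) ≠ 0 →
    u (e.symm (.b i l)) ≠ 0 ∨ u (e.symm (.c i)) ≠ 0)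
  · simp
  · rintro j _ ⟨p, q, hpq, rfl⟩ v hv h
    classical
    simp only [Finsupp.add_apply, Finsupp.single_apply] at h ⊢
    by_cases hp : p = e.symm (.a i l)
    · have : e q = .b i l ∨ e q = .c i := by
        apply Vert.adj_a
        rw [hp] at hpq
        simpa using hpq
      rcases this with this | this
      · have hq : q = e.symm (.b i l) := by rw [← this]; simp
        left
        rw [if_pos hq]
        omega
      · have hq : q = e.symm (.c i) := by rw [← this]; simp
        right
        rw [if_pos hq]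
        omega
    · by_cases hq : q = e.symm (.a i l)
      · have : e p = .b i l ∨ e p = .c i := by
          apply Vert.adj_a
          rw [hq] at hpq
          simpa using hpq.symm
        rcases this with this | this
        · have hp : p = e.symm (.b i l) := by rw [← this]; simp
          left
          rw [if_pos hp]
          omega
        · have hp : p = e.symm (.c i) := by rw [← this]; simp
          right
          rw [if_pos hp]
          omega
      · rw [if_neg hp, if_neg hq] at h
        have := hv (by simpa using h)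
        omega

/-- If no `a` occurs, all edges are edges of the cycle, so the `c`-degree is `2 j`. -/
theorem powExp_c (j : ℕ) (u : σ →₀ ℕ) (hu : u ∈ powExp (edgeExp e) j)
    (h : ∀ i l, u (e.symm (.a i l)) = 0) :
    ∑ i, u (e.symm (.c i)) = 2 * j := by
  revert h
  revert u
  revert j
  apply powExp_induction (P := fun j u => (∀ i l, u (e.symm (.a i l)) = 0) →
    ∑ i, u (e.symm (.c i)) = 2 * j)
  · simp
  · rintro j _ ⟨p, q, hpq, rfl⟩ v hv h
    classical
    have key : ∀ p q : σ, (Vert.graph k m).Adj (e p) (e q) →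
        (∀ i l, p ≠ e.symm (.a i l)) → (∀ i l, q ≠ e.symm (.a i l)) →
        ∃ i, p = e.symm (.c i) := by
      intro p q hpq hp hq
      rcases hx : e p with i | ⟨i, l⟩ | ⟨i, l⟩
      · exact ⟨i, by rw [← hx]; simp⟩
      · exact absurd (by rw [← hx]; simp) (hp i l)
      · have := hpq
        rw [hx] at this
        have := Vert.adj_b this
        exact absurd (by rw [← this]; simp) (hq i l)
    have hv' : ∀ i l, v (e.symm (.a i l)) = 0 := by
      intro i l
      have := h i l
      simp only [Finsupp.add_apply] at this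
      omega
    have hp' : ∀ i l, p ≠ e.symm (.a i l) := by
      intro i l hp
      have := h i l
      simp only [Finsupp.add_apply, Finsupp.single_apply, if_pos hp] at this
      omega
    have hq' : ∀ i l, q ≠ e.symm (.a i l) := by
      intro i l hq
      have := h i l
      simp only [Finsupp.add_apply, Finsupp.single_apply, if_pos hq] at this
      omega
    obtain ⟨i, hi⟩ := key p q hpq hp' hq'
    obtain ⟨i', hi'⟩ := key q p hpq.symm hq' hp'
    simp only [Finsupp.add_apply, Finset.sum_add_distrib]
    rw [hv hv']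
    have : ∀ i, ∑ x, (Finsupp.single (e.symm (.c i)) 1 : σ →₀ ℕ) (e.symm (.c x)) = 1 := by
      intro i
      rw [Finset.sum_eq_single i]
      · simp
      · intro b _ hb
        rw [Finsupp.single_apply, if_neg]
        intro h
        exact hb (by simpa using h.symm)
      · simp
    rw [hi, hi', this, this]
    ring

/-- The exponent of the path product `∏_{t < r} x_{c (i + t)}`. -/
noncomputable def pathExp (i : ZMod (2 * k + 1)) (r : ℕ) : σ →₀ ℕ :=
  ∑ t ∈ Finset.range r, Finsupp.single (e.symm (.c (i + (t : ZMod (2 * k + 1))))) 1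

theorem pathExp_mem (hk : 1 ≤ k) (i : ZMod (2 * k + 1)) (r : ℕ) :
    pathExp e i (2 * r) ∈ powExp (edgeExp e) r := by
  induction r with
  | zero => simp [pathExp, powExp]
  | succ r ih =>
    have : pathExp e i (2 * (r + 1)) =
        (Finsupp.single (e.symm (.c (i + ((2 * r : ℕ) : ZMod (2 * k + 1))))) 1 +
          Finsupp.single (e.symm (.c (i + ((2 * r : ℕ) : ZMod (2 * k + 1)) + 1))) 1) +
        pathExp e i (2 * r) := by
      have h2 : 2 * (r + 1) = 2 * r + 1 + 1 := by ring
      rw [h2, pathExp, Finset.sum_range_succ, Finset.sum_range_succ, ← pathExp]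
      push_cast
      rw [add_comm, add_comm (pathExp e i (2 * r)), ← add_assoc, ← add_assoc]
      congr 1
      abel
    rw [this]
    refine ⟨_, ⟨_, _, ?_, rfl⟩, _, ih, rfl⟩
    simp only [Equiv.apply_symm_apply]
    exact Vert.adj_cc hk _

theorem sum_zmod_eq_range (M : Type*) [AddCommMonoid M] (i : ZMod (2 * k + 1))
    (g : ZMod (2 * k + 1) → M) :
    ∑ x, g x = ∑ t ∈ Finset.range (2 * k + 1), g (i + (t : ZMod (2 * k + 1))) := by
  symm
  apply Finset.sum_nbij' (fun t : ℕ => i + (t : ZMod (2 * k + 1)))
    (fun x : ZMod (2 * k + 1) => (x - i).val)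
  · simp
  · intro x _
    simpa using ZMod.val_lt (x - i)
  · intro t ht
    simp only [add_sub_cancel_left]
    rw [ZMod.val_natCast, Nat.mod_eq_of_lt (by simpa using ht)]
  · intro x _
    simp
  · intro t _
    rfl

/-- The exponent of the product of all cycle variables. -/
noncomputable def cycleExp : σ →₀ ℕ := ∑ i, Finsupp.single (e.symm (.c i)) 1

theorem cycleExp_eq (i : ZMod (2 * k + 1)) : cycleExp e = pathExp e i (2 * k + 1) := by
  rw [cycleExp, pathExp]
  exact sum_zmod_eq_range _ i (fun x => (Finsupp.single (e.symm (.c x)) 1 : σ →₀ ℕ))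

theorem cycle_add_c (hk : 1 ≤ k) (i : ZMod (2 * k + 1)) :
    Finsupp.single (e.symm (.c i)) 1 + cycleExp e ∈ powExp (edgeExp e) (k + 1) := by
  have : Finsupp.single (e.symm (.c i)) 1 + cycleExp e = pathExp e i (2 * (k + 1)) := by
    have h2 : 2 * (k + 1) = 2 * k + 1 + 1 := by ring
    rw [h2, pathExp, Finset.sum_range_succ, ← pathExp, ← cycleExp_eq, add_comm]
    congr 4
    have : ((2 * k + 1 : ℕ) : ZMod (2 * k + 1)) = 0 := ZMod.natCast_self _
    rw [this, add_zero]
  rw [this]
  exact pathExp_mem e hk i (k + 1)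

theorem cycle_add_a (hk : 1 ≤ k) (i : ZMod (2 * k + 1)) (l : Fin m) :
    Finsupp.single (e.symm (.a i l)) 1 + cycleExp e ∈ powExp (edgeExp e) (k + 1) := by
  have : Finsupp.single (e.symm (.a i l)) 1 + cycleExp e =
      (Finsupp.single (e.symm (.c i)) 1 + Finsupp.single (e.symm (.a i l)) 1) +
        pathExp e (i + 1) (2 * k) := by
    rw [cycleExp_eq e i, pathExp, Finset.sum_range_succ', pathExp]
    simp only [Nat.cast_zero, add_zero]
    rw [add_comm (∑ t ∈ _, _), ← add_assoc]
    congr 1
    · rw [add_comm]
    · apply Finset.sum_congr rfl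
      intro t _
      congr 3
      push_cast
      ring
  rw [this]
  refine ⟨_, ⟨_, _, ?_, rfl⟩, _, pathExp_mem e hk _ k, rfl⟩
  simp only [Equiv.apply_symm_apply]
  exact Vert.adj_ca i l

theorem cycleExp_c (i : ZMod (2 * k + 1)) : cycleExp e (e.symm (.c i)) = 1 := by
  classical
  rw [cycleExp, Finsupp.finsetSum_apply, Finset.sum_eq_single i]
  · simp
  · intro b _ hb
    rw [Finsupp.single_apply, if_neg]
    intro h
    exact hb (by simpa using h)
  · simp

theorem cycleExp_not_c (p : σ) (hp : ∀ i, e p ≠ .c i) : cycleExp e p = 0 := by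
  classical
  rw [cycleExp, Finsupp.finsetSum_apply]
  apply Finset.sum_eq_zero
  intro i _
  rw [Finsupp.single_apply, if_neg]
  intro h
  apply hp i
  rw [← h]
  simp

theorem pathExp_le_cycleExp (r : ℕ) (hr : r ≤ 2 * k + 1) (i : ZMod (2 * k + 1)) :
    pathExp e i r ≤ cycleExp e := by
  rw [cycleExp_eq e i, pathExp, pathExp]
  apply Finset.sum_le_sum_of_subset_of_nonneg
  · exact Finset.range_mono hr
  · intros
    exact zero_le

/-- The key combinatorial lemma for the lower bound. -/
theorem exists_mem_of_all_edges (hk : 1 ≤ k) (j : ℕ) (hj : j ≤ k) (u : σ →₀ ℕ)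
    (hum : u.support.card < m)
    (h : ∀ p q : σ, (Vert.graph k m).Adj (e p) (e q) →
      (∃ s ∈ powExp (edgeExp e) j, s ≤ u + Finsupp.single p 1) ∨
      (∃ s ∈ powExp (edgeExp e) j, s ≤ u + Finsupp.single q 1)) :
    ∃ s ∈ powExp (edgeExp e) j, s ≤ u := by
  classical
  by_contra hcon
  push Not at hcon
  have hc : ∀ i : ZMod (2 * k + 1), 1 ≤ u (e.symm (.c i)) := by
    intro i
    -- find a pendant path at `c i` which does not meet the support of `u`
    obtain ⟨l, hla, hlb⟩ : ∃ l : Fin m, u (e.symm (.a i l)) = 0 ∧ u (e.symm (.b i l)) = 0 := by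
      by_contra hno
      push Not at hno
      have hinj : ∃ g : Fin m → σ, Function.Injective g ∧ ∀ l, g l ∈ u.support := by
        refine ⟨fun l => if u (e.symm (.a i l)) = 0 then e.symm (.b i l) else e.symm (.a i l),
          ?_, ?_⟩
        · intro l l' hll
          simp only at hll
          split_ifs at hll <;> simp at hll <;> exact hll
        · intro l
          simp only
          split_ifs with h1
          · simpa using hno l h1
          · simpa using h1
      obtain ⟨g, hg, hg'⟩ := hinj
      have := Finset.card_le_card_of_injOn (s := (Finset.univ : Finset (Fin m))) g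
        (fun l _ => hg' l) hg.injOn
      simp at this
      omega
    rcases h (e.symm (.a i l)) (e.symm (.b i l)) (by simpa using Vert.adj_ab i l) with
      ⟨s, hs, hsu⟩ | ⟨s, hs, hsu⟩
    · -- case `a`
      have hsb : s (e.symm (.b i l)) = 0 := by
        have := hsu (e.symm (.b i l))
        simp only [Finsupp.add_apply, hlb, Finsupp.single_apply] at this
        simpa using this
      have hsa : s (e.symm (.a i l)) ≠ 0 := by
        intro hsa
        apply hcon s hs
        intro x
        have := hsu x
        simp only [Finsupp.add_apply, Finsupp.single_apply] at this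
        by_cases hx : e.symm (.a i l) = x
        · rw [← hx, hsa]
          exact Nat.zero_le _
        · simpa [hx] using this
      have hsc : s (e.symm (.c i)) ≠ 0 := by
        rcases powExp_a e j s hs i l hsa with h1 | h1
        · exact absurd hsb h1
        · exact h1
      have := hsu (e.symm (.c i))
      simp only [Finsupp.add_apply, Finsupp.single_apply] at this
      simp at this
      omega
    · -- case `b`
      have hsa : s (e.symm (.a i l)) = 0 := by
        have := hsu (e.symm (.a i l))
        simp only [Finsupp.add_apply, hla, Finsupp.single_apply] at this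
        simpa using this
      have hsb : s (e.symm (.b i l)) ≠ 0 := by
        intro hsb
        apply hcon s hs
        intro x
        have := hsu x
        simp only [Finsupp.add_apply, Finsupp.single_apply] at this
        by_cases hx : e.symm (.b i l) = x
        · rw [← hx, hsb]
          exact Nat.zero_le _
        · simpa [hx] using this
      exact absurd hsa (powExp_b e j s hs i l hsb)
  apply hcon _ (pathExp_mem e hk 0 j)
  refine (pathExp_le_cycleExp e (2 * j) (by omega) 0).trans ?_
  intro p
  rcases hx : e p with i | ⟨i, l⟩ | ⟨i, l⟩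
  · have : p = e.symm (.c i) := by rw [← hx]; simp
    rw [this, cycleExp_c]
    exact hc i
  · rw [cycleExp_not_c]
    · exact Nat.zero_le _
    · intro i; rw [hx]; simp
  · rw [cycleExp_not_c]
    · exact Nat.zero_le _
    · intro i; rw [hx]; simp

/-- The key combinatorial lemma for the upper bound. -/
theorem exists_ac_of_mem (u s : σ →₀ ℕ) (hs : s ∈ powExp (edgeExp e) (k + 1))
    (hsu : s ≤ u + cycleExp e) :
    ∃ p ∈ {p : σ | (∃ i, e p = .c i) ∨ ∃ i l, e p = .a i l}, u p ≠ 0 := by
  by_contra hno
  push Not at hno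
  have ha : ∀ i l, s (e.symm (.a i l)) = 0 := by
    intro i l
    have h1 := hsu (e.symm (.a i l))
    rw [Finsupp.add_apply, cycleExp_not_c e (e.symm (.a i l)) (by intro i'; simp),
      hno (e.symm (.a i l)) (Or.inr ⟨i, l, by simp⟩)] at h1
    omega
  have h2 := powExp_c e (k + 1) s hs ha
  have h3 : ∑ i, s (e.symm (.c i)) ≤ ∑ i : ZMod (2 * k + 1), 1 := by
    apply Finset.sum_le_sum
    intro i _
    have h1 := hsu (e.symm (.c i))
    rw [Finsupp.add_apply, cycleExp_c, hno (e.symm (.c i)) (Or.inl ⟨i, by simp⟩)] at h1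
    simpa using h1
  rw [h2] at h3
  simp [ZMod.card] at h3
  omega

end Graph

section Algebra

theorem mem_associatedPrimes_colon {R : Type*} [CommRing R] (J : Ideal R) (f : R)
    (h : (J.colon {f}).IsPrime) : J.colon {f} ∈ associatedPrimes R (R ⧸ J) := by
  refine ⟨h, Ideal.Quotient.mk J f, ?_⟩
  have : (⊥ : Submodule R (R ⧸ J)).colon {Ideal.Quotient.mk J f} = J.colon {f} := by
    ext y
    rw [Submodule.mem_colon_singleton, Submodule.mem_colon_singleton, Algebra.smul_def,
      Ideal.Quotient.algebraMap_eq, ← map_mul, Submodule.mem_bot, Ideal.Quotient.eq_zero_iff_mem,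
      smul_eq_mul]
  rw [this, h.isRadical.radical]

variable {σ : Type*} {K : Type*} [Field K]

/-- An ideal generated by variables is prime. -/
theorem isPrime_span_X (s : Set σ) :
    (Ideal.span (X '' s : Set (MvPolynomial σ K))).IsPrime := by
  classical
  let φ : MvPolynomial σ K →ₐ[K] MvPolynomial σ K :=
    aeval (fun i => if i ∈ s then (0 : MvPolynomial σ K) else X i)
  have hker : Ideal.span (X '' s : Set (MvPolynomial σ K)) = RingHom.ker φ.toRingHom := by
    apply le_antisymm
    · rw [Ideal.span_le]
      rintro _ ⟨i, hi, rfl⟩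
      change φ (X i) = 0
      simp [φ, hi]
    · intro f hf
      have hf : φ f = 0 := hf
      have hq : (Ideal.Quotient.mkₐ K (Ideal.span (X '' s : Set (MvPolynomial σ K)))).comp φ =
          Ideal.Quotient.mkₐ K (Ideal.span (X '' s : Set (MvPolynomial σ K))) := by
        apply MvPolynomial.algHom_ext
        intro i
        simp only [AlgHom.comp_apply, Ideal.Quotient.mkₐ_eq_mk]
        by_cases hi : i ∈ s
        · have h1 : φ (X i) = 0 := by simp [φ, hi]
          rw [h1, map_zero, eq_comm, Ideal.Quotient.eq_zero_iff_mem]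
          exact Ideal.subset_span ⟨i, hi, rfl⟩
        · have h1 : φ (X i) = X i := by simp [φ, hi]
          rw [h1]
      have h2 := congrArg (fun g => g f) hq
      simp only [AlgHom.comp_apply, Ideal.Quotient.mkₐ_eq_mk] at h2
      rw [hf, map_zero, eq_comm, Ideal.Quotient.eq_zero_iff_mem] at h2
      exact h2
  rw [hker]
  exact RingHom.ker_isPrime _

/-- A nonempty witness set: a proper homogeneous ideal has an associated prime of the form
`(J : f)` with `f` homogeneous. -/
theorem witnessDegrees_nonempty [Finite σ] (J : Ideal (MvPolynomial σ K)) (hJ : IsHomogeneousIdeal J)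
    (hJtop : J ≠ ⊤) :
    (witnessDegrees J).Nonempty := by
  classical
  let A : Set (Ideal (MvPolynomial σ K)) :=
    {P | ∃ (f : MvPolynomial σ K) (d : ℕ), f.IsHomogeneous d ∧ f ∉ J ∧ P = J.colon {f}}
  have hA : A.Nonempty := by
    refine ⟨_, 1, 0, isHomogeneous_one _ _, ?_, rfl⟩
    intro h
    exact hJtop ((Ideal.eq_top_iff_one _).2 h)
  obtain ⟨P, ⟨f, d, hf, hfJ, rfl⟩, hmax⟩ :=
    (inferInstance : WellFoundedGT (Ideal (MvPolynomial σ K))).wf.has_min A hA
  have hmem : ∀ g, g ∈ J.colon {f} ↔ g * f ∈ J := by
    intro g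
    rw [Submodule.mem_colon_singleton, smul_eq_mul]
  have hprime : (J.colon {f}).IsPrime := by
    let _ := MvPolynomial.gradedAlgebra (σ := σ) (R := K)
    apply Ideal.IsHomogeneous.isPrime_of_homogeneous_mem_or_mem
      (𝒜 := homogeneousSubmodule σ K)
    · -- the colon ideal is homogeneous
      intro i g hg
      have hg : g ∈ J.colon {f} := hg
      rw [hmem] at hg
      change ((MvPolynomial.decomposition.decompose' g i : MvPolynomial σ K)) ∈ J.colon {f}
      rw [MvPolynomial.decomposition.decompose'_apply, hmem]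
      have h1 := hJ _ hg (i + d)
      have h2 : homogeneousComponent (i + d) (g * f) = homogeneousComponent i g * f := by
        conv_lhs => rw [← sum_homogeneousComponent g, Finset.sum_mul, map_sum]
        have h3 : ∀ j, homogeneousComponent (i + d) (homogeneousComponent j g * f) =
            if j = i then homogeneousComponent i g * f else 0 := by
          intro j
          rw [homogeneousComponent_of_mem (n := j + d)]
          · by_cases hji : j = i
            · simp [hji]
            · rw [if_neg hji, if_neg (by omega)]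
          · exact (homogeneousComponent_isHomogeneous j g).mul hf
        simp only [h3]
        rw [Finset.sum_ite_eq']
        split_ifs with h4
        · rfl
        · rw [homogeneousComponent_eq_zero, zero_mul]
          simp only [Finset.mem_range, not_lt] at h4
          omega
      rw [← h2]
      exact h1
    · intro htop
      apply hfJ
      have := (Ideal.eq_top_iff_one _).1 htop
      rw [hmem] at this
      simpa using this
    · rintro x y - ⟨dy, hy⟩ hxy
      rw [or_iff_not_imp_right]
      intro hyf
      rw [hmem] at hyf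
      have hyf' : (y * f).IsHomogeneous (dy + d) := IsHomogeneous.mul hy hf
      have hin : J.colon {y * f} ∈ A := ⟨y * f, dy + d, hyf', hyf, rfl⟩
      have hle : J.colon {f} ≤ J.colon {y * f} := by
        intro z hz
        rw [hmem] at hz
        rw [Submodule.mem_colon_singleton, smul_eq_mul]
        have : z * (y * f) = y * (z * f) := by ring
        rw [this]
        exact J.mul_mem_left _ hz
      have heq : J.colon {f} = J.colon {y * f} := by
        by_contra hne
        exact hmax _ hin (lt_of_le_of_ne hle hne)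
      rw [heq, Submodule.mem_colon_singleton, smul_eq_mul, ← mul_assoc]
      rw [hmem] at hxy
      exact hxy
  refine ⟨d, f, hf, ?_⟩
  exact mem_associatedPrimes_colon J f hprime

end Algebra

section Main

variable {σ : Type*} {K : Type*} [Field K] {k m : ℕ} (e : σ ≃ Vert k m)

theorem edgeIdeal_eq :
    edgeIdeal K ((Vert.graph k m).comap e) =
      Ideal.span ((fun s => monomial s (1 : K)) '' edgeExp e) := by
  rw [edgeIdeal]
  congr 1
  ext f
  constructor
  · rintro ⟨i, j, hij, rfl⟩
    refine ⟨_, ⟨i, j, hij, rfl⟩, ?_⟩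
    simp [X, monomial_mul]
  · rintro ⟨_, ⟨i, j, hij, rfl⟩, rfl⟩
    refine ⟨i, j, hij, ?_⟩
    simp [X, monomial_mul]

theorem mem_pow_iff (j : ℕ) (f : MvPolynomial σ K) :
    f ∈ edgeIdeal K ((Vert.graph k m).comap e) ^ j ↔
      ∀ u ∈ f.support, ∃ s ∈ powExp (edgeExp e) j, s ≤ u := by
  rw [edgeIdeal_eq, span_powExp, mem_ideal_span_monomial_image]

theorem lower_bound (hk : 1 ≤ k) (j : ℕ) (hj : j ≤ k) (f : MvPolynomial σ K) (D : ℕ)
    (hf : f.IsHomogeneous D)
    (hP : ((edgeIdeal K ((Vert.graph k m).comap e) ^ j).colon {f}).IsPrime) : m ≤ D := by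
  classical
  set I := edgeIdeal K ((Vert.graph k m).comap e) with hI
  have hmem : ∀ g, g ∈ (I ^ j).colon {f} ↔ g * f ∈ I ^ j := by
    intro g
    rw [Submodule.mem_colon_singleton, smul_eq_mul]
  by_contra hlt
  push Not at hlt
  have hfI : f ∉ I ^ j := by
    intro h
    apply hP.ne_top
    rw [Ideal.eq_top_iff_one, hmem, one_mul]
    exact h
  rw [hI, mem_pow_iff] at hfI
  push Not at hfI
  obtain ⟨u, hu, hus⟩ := hfI
  -- multiplication of `f` by a variable in the colon ideal
  have hX : ∀ p : σ, (X p : MvPolynomial σ K) ∈ (I ^ j).colon {f} →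
      ∃ s ∈ powExp (edgeExp e) j, s ≤ u + Finsupp.single p 1 := by
    intro p hp
    rw [hmem, hI, mem_pow_iff] at hp
    apply hp
    rw [mem_support_iff, add_comm, coeff_X_mul]
    exact mem_support_iff.1 hu
  have hcard : u.support.card < m := by
    have h1 : u.degree = D := by
      by_contra hne
      exact (mem_support_iff.1 hu) (hf.coeff_eq_zero hne)
    have h2 : u.support.card ≤ u.degree := by
      rw [Finsupp.degree_apply, Finset.card_eq_sum_ones]
      apply Finset.sum_le_sum
      intro x hx
      exact Nat.one_le_iff_ne_zero.2 (Finsupp.mem_support_iff.1 hx)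
    omega
  have hedge : ∀ p q : σ, (Vert.graph k m).Adj (e p) (e q) →
      (∃ s ∈ powExp (edgeExp e) j, s ≤ u + Finsupp.single p 1) ∨
      (∃ s ∈ powExp (edgeExp e) j, s ≤ u + Finsupp.single q 1) := by
    intro p q hpq
    have hmemI : (X p * X q : MvPolynomial σ K) ^ j ∈ (I ^ j).colon {f} := by
      rw [hmem]
      apply Ideal.mul_mem_right
      apply Ideal.pow_mem_pow
      exact Ideal.subset_span ⟨p, q, hpq, rfl⟩
    have := hP.mem_of_pow_mem _ hmemI
    rcases hP.mem_or_mem this with h | h
    · exact Or.inl (hX p h)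
    · exact Or.inr (hX q h)
  obtain ⟨s, hs, hsu⟩ := exists_mem_of_all_edges e hk j hj u hcard hedge
  exact hus s hs hsu

theorem upper_bound [Finite σ] (hk : 1 ≤ k) :
    vNumber (edgeIdeal K ((Vert.graph k m).comap e) ^ (k + 1)) ≤ 2 * k + 1 := by
  classical
  set I := edgeIdeal K ((Vert.graph k m).comap e) with hI
  set T : Set σ := {p : σ | (∃ i, e p = .c i) ∨ ∃ i l, e p = .a i l} with hT
  have hmem : ∀ g, g ∈ (I ^ (k + 1)).colon {monomial (cycleExp e) (1 : K)} ↔
      g * monomial (cycleExp e) (1 : K) ∈ I ^ (k + 1) := by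
    intro g
    rw [Submodule.mem_colon_singleton, smul_eq_mul]
  have hcol : (I ^ (k + 1)).colon {monomial (cycleExp e) (1 : K)} = Ideal.span (X '' T) := by
    apply le_antisymm
    · intro g hg
      rw [hmem, hI, mem_pow_iff] at hg
      rw [mem_ideal_span_X_image]
      intro u hu
      obtain ⟨s, hs, hsu⟩ := hg (u + cycleExp e) (by
        rw [mem_support_iff, coeff_mul_monomial, mul_one]
        exact mem_support_iff.1 hu)
      exact exists_ac_of_mem e u s hs hsu
    · rw [Ideal.span_le]
      rintro _ ⟨p, hp, rfl⟩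
      have : (X p : MvPolynomial σ K) ∈ (I ^ (k + 1)).colon {monomial (cycleExp e) (1 : K)} := by
        rw [hmem, hI, mem_pow_iff]
        intro u hu
        refine ⟨u, ?_, le_rfl⟩
        have hu' : u = Finsupp.single p 1 + cycleExp e := by
          rw [X, monomial_mul, mul_one, mem_support_iff, coeff_monomial] at hu
          by_contra hne
          rw [if_neg (fun h => hne h.symm)] at hu
          exact hu rfl
        rw [hu']
        rcases hp with ⟨i, hi⟩ | ⟨i, l, hi⟩
        · have : p = e.symm (.c i) := by rw [← hi]; simp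
          rw [this]
          exact cycle_add_c e hk i
        · have : p = e.symm (.a i l) := by rw [← hi]; simp
          rw [this]
          exact cycle_add_a e hk i l
      exact this
  apply Nat.sInf_le
  refine ⟨monomial (cycleExp e) (1 : K), ?_, ?_⟩
  · apply isHomogeneous_monomial
    rw [cycleExp, map_sum]
    simp [ZMod.card]
  · apply mem_associatedPrimes_colon
    rw [hcol]
    exact isPrime_span_X T

theorem isHomogeneousIdeal_pow (j : ℕ) :
    IsHomogeneousIdeal (edgeIdeal K ((Vert.graph k m).comap e) ^ j) := by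
  intro f hf d
  rw [mem_pow_iff] at hf ⊢
  intro u hu
  apply hf
  rw [mem_support_iff, coeff_homogeneousComponent] at hu
  rw [mem_support_iff]
  intro h
  apply hu
  rw [h]
  simp

theorem pow_ne_top (j : ℕ) (hj : 1 ≤ j) :
    edgeIdeal K ((Vert.graph k m).comap e) ^ j ≠ ⊤ := by
  intro h
  have h1 : (1 : MvPolynomial σ K) ∈ edgeIdeal K ((Vert.graph k m).comap e) ^ j := by
    rw [h]
    exact Submodule.mem_top
  rw [mem_pow_iff] at h1
  obtain ⟨s, hs, hs0⟩ := h1 0 (by simp)
  have hs0 : s = 0 := by
    ext x
    have := hs0 x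
    simpa using this
  have : 1 ≤ j → ∀ s ∈ powExp (edgeExp e) j, s ≠ 0 := by
    intro _
    revert hj
    intro hj
    obtain ⟨j, rfl⟩ : ∃ j', j = j' + 1 := ⟨j - 1, by omega⟩
    rintro _ ⟨_, ⟨p, q, hpq, rfl⟩, v, hv, rfl⟩ h0
    have := DFunLike.congr_fun h0 p
    simp at this
  exact this hj s hs hs0

end Main

/-- **The v-number is not monotone along powers.**  For every field `K`, every `k ≥ 1` and every
`N` there is a finite simple graph `G` on the vertices `0, …, n - 1` whose edge ideal `I` in
`K[x_0, …, x_{n-1}]` is a nonzero proper homogeneous ideal and satisfies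
`v(I ^ (k + 1)) + N < v(I ^ j)` for all `1 ≤ j ≤ k`; in particular
`v(I ^ (k + 1)) < v(I ^ k)`.  (All the v-numbers `v(I ^ j)`, `j ≥ 1`, are minima of nonempty
sets.) -/
theorem result (K : Type*) [Field K] (k N : ℕ) (hk : 1 ≤ k) :
    ∃ (n : ℕ) (G : SimpleGraph (Fin n)),
      edgeIdeal K G ≠ ⊥ ∧ edgeIdeal K G ≠ ⊤ ∧ IsHomogeneousIdeal (edgeIdeal K G) ∧
      (∀ j : ℕ, 1 ≤ j → (witnessDegrees (edgeIdeal K G ^ j)).Nonempty) ∧
      ∀ j : ℕ, 1 ≤ j → j ≤ k →
        vNumber (edgeIdeal K G ^ (k + 1)) + N < vNumber (edgeIdeal K G ^ j) := by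
  classical
  set m := 2 * k + 2 + N with hm
  let e : Fin (Fintype.card (Vert k m)) ≃ Vert k m := (Fintype.equivFin (Vert k m)).symm
  refine ⟨Fintype.card (Vert k m), (Vert.graph k m).comap e, ?_, ?_, ?_, ?_, ?_⟩
  · intro h
    have h1 : (X (e.symm (.c 0)) * X (e.symm (.c 1)) :
        MvPolynomial (Fin (Fintype.card (Vert k m))) K) ∈
        edgeIdeal K ((Vert.graph k m).comap e) := by
      apply Ideal.subset_span
      refine ⟨_, _, ?_, rfl⟩
      have := Vert.adj_cc (m := m) hk 0
      simpa using this
    rw [h, Ideal.mem_bot, mul_eq_zero] at h1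
    rcases h1 with h1 | h1 <;> exact X_ne_zero _ h1
  · have := pow_ne_top (K := K) e 1 le_rfl
    rwa [pow_one] at this
  · have := isHomogeneousIdeal_pow (K := K) e 1
    rwa [pow_one] at this
  · intro j hj1
    exact witnessDegrees_nonempty _ (isHomogeneousIdeal_pow e j) (pow_ne_top e j hj1)
  · intro j hj1 hjk
    have h1 := upper_bound (K := K) e hk
    have h2 : m ≤ vNumber (edgeIdeal K ((Vert.graph k m).comap e) ^ j) := by
      apply le_csInf
      · exact witnessDegrees_nonempty _ (isHomogeneousIdeal_pow e j) (pow_ne_top e j hj1)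
      · rintro D ⟨f, hf, hP⟩
        exact lower_bound e hk j hjk f D hf hP.isPrime
    omega

end Pool.Agent.Results.MP_0bcfe8_al.VNumberDrop
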